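import Pool.Agent.Run7.h782.WQ.PubS
import Pool.Agent.Run7.h782.WQ.Defs4

/-!
Global weak solutions with at most one singular time: definitions and statements of the pieces.
-/

set_option autoImplicit false

open MeasureTheory Set Filter Topology
open scoped ContDiff ENNReal ComplexConjugate

namespace Pool.Agent.Run7.h782.OS

open H459R3.NS Pool.Agent.Run7.h782 Pool.Agent.Run7.h782.GD Pool.Agent.Run7.h782.GS
open Pool.Agent.Run7.h782.WS Pool.Agent.Run7.h782.WQ Pool.Agent.Run7.h744.WS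
open Pool.Agent.Run7.h969.WS

/-- **Piece A** (energy inequality; the coefficients `vf (v t) k` are uniformly continuous in `t`,
since their derivatives are bounded by the energy). A smooth solution on `[0, T)` has a limit of
finite energy as `t → T`, in the sense of distributions. -/
def StmA : Prop := ∀ (ν T : ℝ), 0 < ν → 0 < T → ∀ (v : ℝ → V → V) (q : ℝ → V → ℝ),
  IsSol ν T v q → ∃ c : Cf, Dis c ∧ (∀ i, ((∫ x in cube, v 0 x i : ℝ) : ℂ) = c 0 i) ∧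
    (Summable fun k => ‖c k‖ ^ 2) ∧
    (∀ (i : Fin 3) (ψ : V → ℝ), ContDiff ℝ ∞ ψ → Per ψ →
      Tendsto (fun t => ∫ x in cube, v t x i * ψ x) (𝓝[<] T) (𝓝 (pr c i ψ))) ∧
    ∀ i, IntegrableOn (fun z : ℝ × V => v z.1 z.2 i ^ 2) (Ioo 0 T ×ˢ cube)

/-- **Piece B** (Riesz-Fischer for `anti c`). Fields of finite energy are `P div R`, `R ∈ L²`. -/
def StmB : Prop := ∀ c : Cf, Herm c → Dv c → (Summable fun k => ‖c k‖ ^ 2) →
  ∃ R : Fin 3 → Fin 3 → V → ℝ, Str R ∧ IsDiv R c ∧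
    ∀ i j, IntegrableOn (fun x => |R i j x| ^ (2 : ℝ)) cube

/-- The integrand of the very weak formulation. -/
noncomputable def wk (ν : ℝ) (u : ℝ → V → V) (χ : ℝ → ℝ) (φ : V → V) (z : ℝ × V) : ℝ :=
  deriv χ z.1 * (∑ i, u z.1 z.2 i * φ z.2 i)
    + χ z.1 * (∑ i, ∑ j, u z.1 z.2 i * u z.1 z.2 j * pd i (fun y => φ y j) z.2
      + ν * ∑ i, u z.1 z.2 i * ∑ j, pd j (pd j (fun y => φ y i)) z.2)

/-- **Piece C1** (as `h980/WQ/VW.lean`, letting the upper end tend to `T`). The very weak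
formulation for smooth solutions on `[0, T)`, with the limit `c` at `T`. -/
def StmC1 : Prop := ∀ (ν T : ℝ), 0 < ν → 0 < T → ∀ (v : ℝ → V → V) (q : ℝ → V → ℝ),
  IsSol ν T v q → (∀ i, IntegrableOn (fun z : ℝ × V => v z.1 z.2 i ^ 2) (Ioo 0 T ×ˢ cube)) →
  ∀ c : Cf, (∀ (i : Fin 3) (ψ : V → ℝ), ContDiff ℝ ∞ ψ → Per ψ →
    Tendsto (fun t => ∫ x in cube, v t x i * ψ x) (𝓝[<] T) (𝓝 (pr c i ψ))) →
  ∀ (χ : ℝ → ℝ) (φ : V → V), ContDiff ℝ ∞ χ → ContDiff ℝ ∞ φ → Per φ →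
    (∀ x, ∑ i, pd i (fun y => φ y i) x = 0) →
    χ 0 * (∑ i, pr (vf (v 0)) i (fun x => φ x i)) - χ T * (∑ i, pr c i (fun x => φ x i))
      + ∫ z in Ioo 0 T ×ˢ cube, wk ν v χ φ z = 0

/-- The solution `v` before the time `T`, and `w`, started at the time `T`, after it. -/
noncomputable def glue (T : ℝ) (v w : ℝ → V → V) (t : ℝ) : V → V := if t < T then v t else w (t - T)

/-- **Piece C** (from C1 and translation in time). Gluing. -/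
def StmC : Prop := ∀ (ν T : ℝ), 0 < ν → 0 < T → ∀ (v : ℝ → V → V) (q : ℝ → V → ℝ),
  IsSol ν T v q → (∀ i, IntegrableOn (fun z : ℝ × V => v z.1 z.2 i ^ 2) (Ioo 0 T ×ˢ cube)) →
  ∀ c : Cf, (∀ (i : Fin 3) (ψ : V → ℝ), ContDiff ℝ ∞ ψ → Per ψ →
    Tendsto (fun t => ∫ x in cube, v t x i * ψ x) (𝓝[<] T) (𝓝 (pr c i ψ))) →
  ∀ w : ℝ → V → V, (∀ T', 0 < T' → VW ν T' c w) →
  ∀ T', 0 < T' → VW ν T' (vf (v 0)) (glue T v w)

/-- **The theorem.** -/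
def StmOS : Prop := ∀ (ν T : ℝ), 0 < ν → 0 < T → ∀ (v : ℝ → V → V) (q : ℝ → V → ℝ),
  IsSol ν T v q → ∃ c : Cf, Inst.Dist c ∧ (Summable fun k => ‖c k‖ ^ 2) ∧
    (∀ ψ : V → V, ContDiff ℝ ∞ ψ → Per ψ →
      Tendsto (fun t => ∫ x in cube, ∑ i, v t x i * ψ x i) (𝓝[<] T) (𝓝 (Inst.pairing c ψ))) ∧
    (∃ R : Fin 3 → Fin 3 → V → ℝ, Inst.Stress R ∧ Inst.IsPDiv R c ∧
      ∀ i j, IntegrableOn (fun x => |R i j x| ^ (2 : ℝ)) cube) ∧
    ∀ Q : ℕ → ℝ, (∀ n, 1 ≤ Q n) → (∃ R : Fin 3 → Fin 3 → V → ℝ, Inst.Stress R ∧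
      Inst.IsPDiv R c ∧ ∀ n i j, IntegrableOn (fun x => |R i j x| ^ Q n) cube) →
    ∀ (U : ℝ → V → V) (P : ℝ → V → ℝ), (∀ T, IsSol ν T U P) →
    (∀ i, ∫ x in cube, U 0 x i = ∫ x in cube, v 0 x i) → ∀ φ : ℝ → ℝ, Inst.IsGauge φ →
    ∀ δ : ℝ, 0 < δ → ∃ (u : ℝ → V → V) (p : ℝ → V → ℝ),
      (∀ t, t < T → u t = v t ∧ p t = q t) ∧
      Inst.Instant ν c Q φ (fun t => u (t + T)) (fun t => p (t + T)) ∧
      (∀ T', 0 < T' → Inst.VeryWeak ν T' (vf (v 0)) u) ∧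
      ∀ t, T + δ ≤ t → ∀ x i, |u t x i - U t x i| ≤ δ

end Pool.Agent.Run7.h782.OS
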