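import Pool.Agent.Run7.h782.OS.Defs
import Pool.Agent.Run7.h811.WQ.NecA1
import Pool.Agent.Run7.h744.WQ.Q0

/-!
Piece B of one singular time: fields of finite energy are `P div R` with `R` square integrable.
-/

set_option autoImplicit false

open MeasureTheory Set Filter Topology
open scoped ContDiff ENNReal ComplexConjugate

namespace Pool.Agent.Run7.h782.OS

open H459R3.NS Pool.Agent.Run7.h782 Pool.Agent.Run7.h782.GD Pool.Agent.Run7.h782.GS
open Pool.Agent.Run7.h782.WS Pool.Agent.Run7.h782.WQ Pool.Agent.Run7.h744.WS
open Pool.Agent.Run7.h969.WS Pool.Agent.Run7.h811.WS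

/-- **Piece B.** -/
theorem stmB : StmB := by
  intro c hh hd hs
  have := cube_finite
  have hsy : Sy (anti c) := h744.WQ.stmQ0.2.2.2.2.2.2.2.2.2.1 c hh
  have hsq : ∀ i j, Summable fun k => ‖anti c i j k‖ ^ 2 := by
    intro i j
    refine Summable.of_nonneg_of_le (fun _ => sq_nonneg _) (fun k => ?_) hs
    refine pow_le_pow_left₀ (norm_nonneg _) ?_ 2
    rw [anti_eq]
    refine (norm_ac_le i j k (c k)).trans ?_
    by_cases hk : k = 0
    · subst hk
      rw [GD.len_zero, div_zero]
      exact norm_nonneg _
    · exact div_le_self (norm_nonneg _) (GD.one_le_len hk)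
  have hex := fun i j : Fin 3 => h811.WQ.rf_exists (γ := anti c i j) (fun k => hsy.herm i j k) (hsq i j)
  choose s f hs0 hper hmem hfr hlim using hex
  refine ⟨fun i j => f (min i j) (max i j), ⟨fun i j => hper _ _, fun i j x => ?_, fun i j => ?_⟩,
    ?_, fun i j => ?_⟩
  · show f (min i j) (max i j) x = f (min j i) (max j i) x
    rw [min_comm, max_comm]
  · exact (hmem _ _).integrable (by norm_num)
  · intro k hk
    have e1 : (fun i j l => fr (f (min i j) (max i j)) l) = anti c := by
      funext i j l
      rw [hfr]
      rcases le_total i j with h | h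
      · rw [min_eq_left h, max_eq_right h]
      · rw [min_eq_right h, max_eq_left h]
        exact hsy.sym _ _ _
    rw [e1]
    set c' : Cf := fun l => if l = 0 then 0 else c l with hc'
    have e2 : anti c = anti c' := by
      funext i j l
      rw [anti_eq, anti_eq]
      by_cases hl : l = 0
      · subst hl
        have h1 : ∀ v : C3, ac i j 0 v = 0 := by
          intro v
          have := norm_ac_le i j 0 v
          rw [GD.len_zero, div_zero] at this
          exact norm_eq_zero.1 (le_antisymm this (norm_nonneg _))
        rw [h1, h1]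
      · rw [hc']
        simp only [hl, if_false]
    rw [e2, h744.WQ.stmQ0.2.2.2.2.2.2.2.2.2.2 c' ?_ (by simp [hc'])]
    · simp [hc', hk]
    · intro l
      by_cases hl : l = 0
      · subst hl
        simp [hc', kd]
      · simp only [hc', hl, if_false]
        exact hd l
  · have h1 := (hmem (min i j) (max i j)).integrable_norm_rpow (by norm_num) (by norm_num)
    simpa [IntegrableOn] using h1

end Pool.Agent.Run7.h782.OS
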