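import Pool.Agent.Run7.h782.OS.Main
import Pool.Agent.Run7.h782.OS.B
import Pool.Agent.Run7.h782.WQ.AllS
import Pool.Agent.Run7.h219.OS.A
import Pool.Agent.Run7.h219.OS.C

/-!
One singular time: assembly.
-/

set_option autoImplicit false

namespace Pool.Agent.Run7.h782.OS

theorem stmOS : StmOS :=
  os WQ.stmFinal Pool.Agent.Run7.h219.OS.stmA stmB Pool.Agent.Run7.h219.OS.stmC

end Pool.Agent.Run7.h782.OS
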