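import Pool.Agent.Run7.h782.OS.Defs
import Pool.Agent.Run7.h782.WQ.FinalS
import Pool.Agent.Run7.h969.GD.Tgt2

/-!
Global weak solutions with at most one singular time: assembly.
-/

set_option autoImplicit false

open MeasureTheory Set Filter Topology
open scoped ContDiff ENNReal ComplexConjugate

namespace Pool.Agent.Run7.h782.OS

open H459R3.NS Pool.Agent.Run7.h782 Pool.Agent.Run7.h782.GD Pool.Agent.Run7.h782.GS
open Pool.Agent.Run7.h782.WS Pool.Agent.Run7.h782.WQ Pool.Agent.Run7.h744.WS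
open Pool.Agent.Run7.h969.WS Pool.Agent.Run7.h782.WQ.Inst

/-- The mean is conserved. -/
theorem mean_eq {ν : ℝ} {U : ℝ → V → V} {P : ℝ → V → ℝ} (h : ∀ T, IsSol ν T U P) {t : ℝ}
    (ht : 0 ≤ t) (i : Fin 3) : ∫ x in cube, U t x i = ∫ x in cube, U 0 x i := by
  have hd : ∀ s, 0 ≤ s → HasDerivWithinAt (fun s => vf (U s) 0) 0 (Ici 0) s := by
    intro s hs
    refine (h969.GD.der_vf h hs 0).congr_deriv ?_
    rw [nl_zero_mode, lam, sq_zero']
    simp
  have h1 : vf (U t) 0 = vf (U 0) 0 := by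
    have := constant_of_derivWithin_zero (f := fun s => vf (U s) 0) (a := 0) (b := t)
      (fun s hs => ((hd s hs.1).mono Icc_subset_Ici_self).differentiableWithinAt)
      (fun s hs => by
        have h2 : HasDerivWithinAt (fun s => vf (U s) 0) 0 (Icc 0 t) s :=
          (hd s hs.1).mono Icc_subset_Ici_self
        exact h2.derivWithin (uniqueDiffOn_Icc (hs.1.trans_lt hs.2) s ⟨hs.1, hs.2.le⟩)) t
      ⟨ht, le_rfl⟩
    exact this
  have h2 := congrFun h1 i
  rw [vf, vf, Pool.Agent.Run7.h32.GD.fr_zero_eq, Pool.Agent.Run7.h32.GD.fr_zero_eq] at h2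
  exact_mod_cast h2

/-- Translation in time of global smooth solutions. -/
theorem isSol_shift {ν : ℝ} {U : ℝ → V → V} {P : ℝ → V → ℝ} (h : ∀ T, IsSol ν T U P) {τ : ℝ}
    (hτ : 0 < τ) (T : ℝ) : IsSol ν T (fun t => U (t + τ)) (fun t => P (t + τ)) where
  smooth_u := by
    have h1 : ContDiff ℝ ∞ fun z : ℝ × V => (z.1 + τ, z.2) :=
      (contDiff_fst.add contDiff_const).prodMk contDiff_snd
    exact (h (T + τ)).smooth_u.comp h1.contDiffOn fun z hz => ⟨⟨by
      have := hz.1.1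
      show 0 ≤ z.1 + τ
      linarith, by
      have := hz.1.2
      show z.1 + τ < T + τ
      linarith⟩, mem_univ _⟩
  smooth_p := by
    have h1 : ContDiff ℝ ∞ fun z : ℝ × V => (z.1 + τ, z.2) :=
      (contDiff_fst.add contDiff_const).prodMk contDiff_snd
    exact (h (T + τ)).smooth_p.comp h1.contDiffOn fun z hz => ⟨⟨by
      have := hz.1.1
      show 0 ≤ z.1 + τ
      linarith, by
      have := hz.1.2
      show z.1 + τ < T + τ
      linarith⟩, mem_univ _⟩
  per_u t ht := (h (T + τ)).per_u _ ⟨by linarith [ht.1], by linarith [ht.2]⟩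
  per_p t ht := (h (T + τ)).per_p _ ⟨by linarith [ht.1], by linarith [ht.2]⟩
  divfree t ht x := (h (T + τ)).divfree _ ⟨by linarith [ht.1], by linarith [ht.2]⟩ x
  momentum t ht x i := by
    have h1 := (h (T + τ)).momentum (t + τ) ⟨by linarith [ht.1], by linarith [ht.2]⟩ x i
    rw [← h1]
    congr 1
    exact deriv_comp_add_const (fun s => U s x i) τ t

section

variable {ν T : ℝ} {u u' : ℝ → V → V} {p p' : ℝ → V → ℝ}

theorem cOSol (h : OSol ν u p) (hu : ∀ t, 0 < t → u' t = u t) (hp : ∀ t, 0 < t → p' t = p t) :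
    OSol ν u' p' where
  smooth_u := h.smooth_u.congr fun z hz => by
    show u' z.1 z.2 = u z.1 z.2
    rw [hu z.1 hz.1]
  smooth_p := h.smooth_p.congr fun z hz => by
    show p' z.1 z.2 = p z.1 z.2
    rw [hp z.1 hz.1]
  per_u t ht := by rw [hu t ht]; exact h.per_u t ht
  per_p t ht := by rw [hp t ht]; exact h.per_p t ht
  divfree t ht x := by rw [hu t ht]; exact h.divfree t ht x
  momentum t ht x i := by
    have e : (fun s => u' s x i) =ᶠ[𝓝 t] fun s => u s x i := by
      filter_upwards [Ioi_mem_nhds ht] with s hs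
      rw [hu s hs]
    rw [e.deriv_eq, hu t ht, hp t ht]
    exact h.momentum t ht x i

theorem box_meas (T : ℝ) : MeasurableSet (Ioo (0 : ℝ) T ×ˢ cube) :=
  measurableSet_Ioo.prod measurableSet_Icc

theorem cVeryWeak {c : K3 → C3} (h : Inst.VeryWeak ν T c u) (hu : ∀ t, 0 < t → u' t = u t) :
    Inst.VeryWeak ν T c u' := by
  have e : ∀ z ∈ Ioo (0 : ℝ) T ×ˢ cube, u' z.1 z.2 = u z.1 z.2 := fun z hz => by
    rw [hu z.1 hz.1.1]
  refine ⟨fun i => (h.meas i).congr ?_, fun i => ?_, fun χ f hχ h0 hf hp => ?_,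
    fun χ ψ hχ h0 hψ hp hd => ?_⟩
  · filter_upwards [ae_restrict_mem (box_meas T)] with z hz
    rw [e z hz]
  · exact (h.sq i).congr_fun (fun z hz => by
      show u z.1 z.2 i ^ 2 = u' z.1 z.2 i ^ 2
      rw [e z hz]) (box_meas T)
  · have e2 : EqOn (fun z : ℝ × V => χ z.1 * ∑ i, u' z.1 z.2 i * pd i f z.2)
        (fun z : ℝ × V => χ z.1 * ∑ i, u z.1 z.2 i * pd i f z.2) (Ioo (0 : ℝ) T ×ˢ cube) := by
      intro z hz
      simp only [e z hz]
    rw [setIntegral_congr_fun (box_meas T) e2]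
    exact h.div χ f hχ h0 hf hp
  · have e2 : EqOn (fun z : ℝ × V => deriv χ z.1 * (∑ i, u' z.1 z.2 i * ψ z.2 i)
        + χ z.1 * (∑ i, ∑ j, u' z.1 z.2 i * u' z.1 z.2 j * pd i (fun y => ψ y j) z.2
          + ν * ∑ i, u' z.1 z.2 i * ∑ j, pd j (pd j (fun y => ψ y i)) z.2))
        (fun z : ℝ × V => deriv χ z.1 * (∑ i, u z.1 z.2 i * ψ z.2 i)
        + χ z.1 * (∑ i, ∑ j, u z.1 z.2 i * u z.1 z.2 j * pd i (fun y => ψ y j) z.2
          + ν * ∑ i, u z.1 z.2 i * ∑ j, pd j (pd j (fun y => ψ y i)) z.2))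
        (Ioo (0 : ℝ) T ×ˢ cube) := by
      intro z hz
      simp only [e z hz]
    rw [setIntegral_congr_fun (box_meas T) e2]
    exact h.weak χ ψ hχ h0 hψ hp hd

theorem cInL2Lq {q : ℝ} (h : Inst.InL2Lq T u q) (hu : ∀ t, 0 < t → u' t = u t) :
    Inst.InL2Lq T u' q := by
  unfold Inst.InL2Lq at *
  rwa [setLIntegral_congr_fun measurableSet_Ioo (fun t ht => by
    show _ = (∫⁻ x in cube, ENNReal.ofReal (∑ i, |u t x i| ^ q)) ^ (2 / q)
    rw [hu t ht.1])]

theorem cApproximates {c : K3 → C3} {Q : ℕ → ℝ} {v : ℕ → ℝ → V → V} {q : ℕ → ℝ → V → ℝ}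
    (h : Inst.Approximates ν c Q u v q) (hu : ∀ t, 0 < t → u' t = u t) :
    Inst.Approximates ν c Q u' v q where
  sol := h.sol
  init := h.init
  unif τ hτ ε hε := by
    filter_upwards [h.unif τ hτ ε hε] with j hj t ht x i
    rw [hu t (hτ.trans_le ht)]
    exact hj t ht x i
  lq n T := by
    refine (h.lq n T).congr fun j => setLIntegral_congr_fun measurableSet_Ioo fun t ht => ?_
    show _ = _
    rw [hu t ht.1]

theorem cInstant {c : K3 → C3} {Q : ℕ → ℝ} {φ : ℝ → ℝ} (h : Inst.Instant ν c Q φ u p)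
    (hu : ∀ t, 0 < t → u' t = u t) (hp : ∀ t, 0 < t → p' t = p t) : Inst.Instant ν c Q φ u' p' where
  sol := cOSol h.sol hu hp
  weak T hT := cVeryWeak (h.weak T hT) hu
  lq T hT n := cInL2Lq (h.lq T hT n) hu
  attain ψ hψ hper := by
    refine (h.attain ψ hψ hper).congr' ?_
    filter_upwards [self_mem_nhdsWithin] with t ht
    rw [hu t ht]
  strong n ε hε := by
    filter_upwards [h.strong n ε hε, self_mem_nhdsWithin] with t h1 ht
    rw [hu t ht]
    exact h1
  bound := by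
    obtain ⟨g, h1, h2, h3⟩ := h.bound
    exact ⟨g, fun t ht x i => by rw [hu t ht]; exact h1 t ht x i, h2, h3⟩
  besov hs i := by
    refine (h.besov hs i).congr' ?_
    filter_upwards [self_mem_nhdsWithin] with t ht
    rw [hu t ht]
  lim := by
    obtain ⟨v, q, h1⟩ := h.lim
    exact ⟨v, q, cApproximates h1 hu⟩

end

theorem os (hF : StmFinal) (hA : StmA) (hB : StmB) (hC : StmC) : StmOS := by
  intro ν T hν hT v q hv
  obtain ⟨c, hc, hmean, hsum, hlim, hsq⟩ := hA ν T hν hT v q hv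
  refine ⟨c, ⟨hc.herm, hc.dv, hc.grow⟩, hsum, ?_, ?_, ?_⟩
  · intro ψ hψ hp
    have h3 : Tendsto (fun t => ∑ i, ∫ x in cube, v t x i * ψ x i) (𝓝[<] T)
        (𝓝 (Inst.pairing c ψ)) :=
      tendsto_finsetSum _ fun i _ => hlim i (fun x => ψ x i) (comp_smooth hψ i) (comp_per hp i)
    refine h3.congr' ?_
    have h4 : Ioo 0 T ∈ 𝓝[<] T := Ioo_mem_nhdsLT hT
    filter_upwards [h4] with t ht
    rw [integral_finsetSum]
    intro i _
    exact integrableOn_cube (((hv.sp ⟨ht.1.le, ht.2⟩ i).smooth.continuous).mul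
      (comp_smooth hψ i).continuous)
  · obtain ⟨R, hR, hRc, hR2⟩ := hB c hc.herm hc.dv hsum
    exact ⟨R, ⟨hR.per, hR.sym, hR.int⟩, (isDiv_iff' hc.dv).2 hRc, hR2⟩
  · intro Q hQ hR U P hU hUm φ hφ δ hδ
    have hT3 := (finalS hF ν hν Q hQ c ⟨hc.herm, hc.dv, hc.grow⟩).out 1 2
    have key := hT3.1 hR
    obtain ⟨w, p, hI, hcl⟩ := key (fun t => U (t + T)) (fun t => P (t + T))
      (isSol_shift hU hT) (fun i => by
        rw [← hmean i, ← hUm i]
        have h := mean_eq hU (t := 0 + T) (by linarith) i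
        exact_mod_cast h) φ hφ δ hδ
    have e1 : ∀ t, t < T → glue T v w t = v t := fun t ht => if_pos ht
    have e2 : ∀ t, 0 < t → glue T v w (t + T) = w t := by
      intro t ht
      have h : ¬ (t + T < T) := by linarith
      rw [glue, if_neg h, add_sub_cancel_right]
    refine ⟨glue T v w, fun t => if t < T then q t else p (t - T), fun t ht => ⟨e1 t ht, if_pos ht⟩,
      ?_, fun T' hT' => vw_of' (hC ν T hν hT v q hv hsq c hlim w
        (fun T' hT' => vw_to' (hI.weak T' hT')) T' hT'), ?_⟩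
    · refine cInstant hI e2 fun t ht => ?_
      have h : ¬ (t + T < T) := by linarith
      show (if t + T < T then q (t + T) else p (t + T - T)) = p t
      rw [if_neg h, add_sub_cancel_right]
    · intro t ht x i
      have h := hcl (t - T) (by linarith) x i
      rw [sub_add_cancel] at h
      have h2 := e2 (t - T) (by linarith)
      rw [sub_add_cancel] at h2
      rw [h2]
      exact h

end Pool.Agent.Run7.h782.OS
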